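import Mathlib

set_option autoImplicit false

namespace Pool.Agent.W433.OddLoop

/-! ## The automaton -/

section automaton

variable {n : ℕ}

/-- put a new letter in front of a history (index `0` is the newest letter) -/
def hcons (j : Fin n) (h : ℕ → Fin n) : ℕ → Fin n
  | 0 => j
  | m + 1 => h m

/-- letters `e, ..., e + D` are equal -/
def TN (D : ℕ) (h : ℕ → Fin n) (e : ℕ) : Prop := ∀ i < D, h (e + i + 1) = h (e + i)

/-- strict rise into position `e + D` followed by a non-rise -/
def TM (D : ℕ) (h : ℕ → Fin n) (e : ℕ) : Prop :=
  (h (e + D + 1) : ℕ) < h (e + D) ∧ (h (e + D - 1) : ℕ) ≤ h (e + D)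

/-- move for type N -/
def fN (d s : ℕ) : ℕ := if s = d + 2 then d else s - 1
/-- move for type M -/
def fM (d s : ℕ) : ℕ := if s ≤ d then s + 1 else d
/-- move for type G -/
def fG (d s : ℕ) : ℕ := if s ≤ d + 1 then s + 1 else d + 1

open Classical in
/-- one step of the automaton -/
noncomputable def stp (d D : ℕ) (h : ℕ → Fin n) (e : ℕ) (s : ℕ) : ℕ :=
  if TN D h e then fN d s else if TM D h e then fM d s else fG d s

/-- `col h e k c`: state after the steps `e + k - 1, ..., e`, starting from `c`. -/
noncomputable def col (d D : ℕ) (h : ℕ → Fin n) : ℕ → ℕ → ℕ → ℕ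
  | _, 0, c => c
  | e, k + 1, c => stp d D h e (col d D h (e + 1) k c)

variable {d D : ℕ} {h : ℕ → Fin n}

lemma stp_le {e s : ℕ} (hs : s ≤ d + 2) : stp d D h e s ≤ d + 2 := by
  unfold stp fN fM fG
  split_ifs <;> omega

lemma col_le {e k c : ℕ} (hc : c ≤ d + 2) : col d D h e k c ≤ d + 2 := by
  induction k generalizing e with
  | zero => exact hc
  | succ k ih => exact stp_le ih

lemma col_add (e k l c : ℕ) :
    col d D h e (k + l) c = col d D h e k (col d D h (e + k) l c) := by
  induction k generalizing e with
  | zero => simp [col]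
  | succ k ih =>
    rw [show k + 1 + l = (k + l) + 1 by omega]
    simp only [col]
    rw [ih, show e + 1 + k = e + (k + 1) by omega]

/-- all starting states are merged -/
def Merged (d D : ℕ) (h : ℕ → Fin n) (e k : ℕ) : Prop :=
  ∀ c c', c ≤ d + 2 → c' ≤ d + 2 → col d D h e k c = col d D h e k c'

lemma Merged.older {e k : ℕ} (hm : Merged d D h e k) (l : ℕ) : Merged d D h e (k + l) := by
  intro c c' hc hc'
  rw [col_add, col_add]
  exact hm _ _ (col_le hc) (col_le hc')

lemma Merged.newer {e k : ℕ} (l : ℕ) (hm : Merged d D h (e + l) k) : Merged d D h e (l + k) := by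
  intro c c' hc hc'
  rw [col_add, col_add, hm c c' hc hc']

lemma Merged.full {e k K : ℕ} (hm : Merged d D h e k) (hK : e + k ≤ K) : Merged d D h 0 K := by
  obtain ⟨l, rfl⟩ := Nat.exists_eq_add_of_le hK
  have h1 : Merged d D h (0 + e) k := by rwa [Nat.zero_add]
  exact (Merged.newer e h1).older l

/-- types at shifted histories -/
lemma TN_hcons (j : Fin n) (e : ℕ) : TN D (hcons j h) (e + 1) ↔ TN D h e := by
  unfold TN
  constructor
  · intro H i hi
    have := H i hi
    rw [show e + 1 + i + 1 = (e + i + 1) + 1 by omega, show e + 1 + i = (e + i) + 1 by omega] at this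
    exact this
  · intro H i hi
    rw [show e + 1 + i + 1 = (e + i + 1) + 1 by omega, show e + 1 + i = (e + i) + 1 by omega]
    exact H i hi

lemma TM_hcons (hD : 1 ≤ D) (j : Fin n) (e : ℕ) : TM D (hcons j h) (e + 1) ↔ TM D h e := by
  unfold TM
  obtain ⟨D', rfl⟩ := Nat.exists_eq_add_of_le' hD
  rw [show e + 1 + (D' + 1) + 1 = (e + (D' + 1) + 1) + 1 by omega,
    show e + 1 + (D' + 1) = (e + (D' + 1)) + 1 by omega,
    show e + (D' + 1) + 1 - 1 = (e + (D' + 1) - 1) + 1 by omega]
  rfl

lemma stp_hcons (hD : 1 ≤ D) (j : Fin n) (e s : ℕ) :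
    stp d D (hcons j h) (e + 1) s = stp d D h e s := by
  classical
  unfold stp
  simp only [TN_hcons, TM_hcons hD]

lemma col_hcons (hD : 1 ≤ D) (j : Fin n) (e k c : ℕ) :
    col d D (hcons j h) (e + 1) k c = col d D h e k c := by
  induction k generalizing e with
  | zero => rfl
  | succ k ih =>
    simp only [col]
    rw [ih, stp_hcons hD]

/-- dependence on finitely many letters -/
lemma stp_congr {h' : ℕ → Fin n} {e s : ℕ} (H : ∀ m, m ≤ e + D + 1 → h m = h' m) :
    stp d D h e s = stp d D h' e s := by
  classical
  have h1 : TN D h e ↔ TN D h' e := by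
    unfold TN
    constructor
    · intro G i hi
      rw [← H _ (by omega), ← H _ (by omega)]; exact G i hi
    · intro G i hi
      rw [H _ (by omega), H _ (by omega)]; exact G i hi
  have h2 : TM D h e ↔ TM D h' e := by
    unfold TM
    rw [H _ (by omega), H _ (by omega), H (e + D - 1) (by omega)]
  unfold stp
  simp only [h1, h2]

lemma col_congr {h' : ℕ → Fin n} {e k c : ℕ} (H : ∀ m, m ≤ e + k + D + 1 → h m = h' m) :
    col d D h e k c = col d D h' e k c := by
  induction k generalizing e with
  | zero => rfl
  | succ k ih =>
    simp only [col]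
    rw [ih (fun m hm => H m (by omega))]
    exact stp_congr (fun m hm => H m (by omega))

/-! ### Merging -/

lemma stp_N {e s : ℕ} (hN : TN D h e) : stp d D h e s = fN d s := by
  classical
  unfold stp; rw [if_pos hN]

lemma stp_M {e s : ℕ} (hN : ¬ TN D h e) (hM : TM D h e) : stp d D h e s = fM d s := by
  classical
  unfold stp; rw [if_neg hN, if_pos hM]

lemma stp_G {e s : ℕ} (hN : ¬ TN D h e) (hM : ¬ TM D h e) : stp d D h e s = fG d s := by
  classical
  unfold stp; rw [if_neg hN, if_neg hM]

/-- a chain of type N leads to state `0` -/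
lemma chainN {e k : ℕ} (H : ∀ i, i < k → TN D h (e + i)) {c : ℕ} (hc : c ≤ d + 2) :
    col d D h e k c ≤ d + 2 - k := by
  induction k generalizing e with
  | zero => simpa [col] using hc
  | succ k ih =>
    have h1 := @ih (e + 1) (fun i hi => by
      have := H (i + 1) (by omega)
      rwa [show e + (i + 1) = e + 1 + i by omega] at this)
    simp only [col]
    rw [stp_N (by simpa using H 0 (by omega))]
    unfold fN
    split_ifs <;> omega

lemma merged_of_chainN {e : ℕ} (H : ∀ i, i < d + 2 → TN D h (e + i)) :
    Merged d D h e (d + 2) := by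
  intro c c' hc hc'
  have h1 := chainN (d := d) H hc
  have h2 := chainN (d := d) H hc'
  omega

/-- a chain without type N leads to a state at least `d` -/
lemma chainG {e k : ℕ} (H : ∀ i, i < k → ¬ TN D h (e + i)) {c : ℕ} :
    min k d ≤ col d D h e k c := by
  induction k generalizing e with
  | zero => simp
  | succ k ih =>
    have h1 := @ih (e + 1) (fun i hi => by
      have := H (i + 1) (by omega)
      rwa [show e + (i + 1) = e + 1 + i by omega] at this)
    simp only [col]
    have h0 : ¬ TN D h e := by simpa using H 0 (by omega)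
    by_cases hM : TM D h e
    · rw [stp_M h0 hM]; unfold fM; split_ifs <;> omega
    · rw [stp_G h0 hM]; unfold fG; split_ifs <;> omega

/-- an event resets the states `d + 1`, `d + 2` -/
lemma reset_event {e s : ℕ} (hev : TN D h e ∨ TM D h e) (h1 : d + 1 ≤ s) (h2 : s ≤ d + 2) :
    stp d D h e s = d := by
  by_cases hN : TN D h e
  · rw [stp_N hN]; unfold fN; split_ifs <;> omega
  · rw [stp_M hN (hev.resolve_left hN)]; unfold fM; split_ifs <;> omega

/-- states `≥ d + 1` stay there until the next event, where they merge -/
lemma merge_at_event (Z : ℕ) : ∀ (j k : ℕ),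
    (∀ c, c ≤ d + 2 → d + 1 ≤ col d D h (j + Z) k c) →
    (∃ e, j ≤ e ∧ e < j + Z ∧ (TN D h e ∨ TM D h e)) → Merged d D h j (Z + k) := by
  induction Z with
  | zero =>
    rintro j k - ⟨e, h1, h2, -⟩
    omega
  | succ Z ih =>
    rintro j k hP ⟨e, he1, he2, he3⟩
    by_cases hev : TN D h (j + Z) ∨ TM D h (j + Z)
    · have hm : Merged d D h (j + Z) (k + 1) := by
        intro c c' hc hc'
        simp only [col]
        rw [reset_event hev (by simpa [Nat.add_assoc] using hP c hc) (col_le hc),
          reset_event hev (by simpa [Nat.add_assoc] using hP c' hc') (col_le hc')]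
      have := Merged.newer Z hm
      rwa [show Z + (k + 1) = Z + 1 + k by omega] at this
    · have hev' := hev
      push Not at hev
      have h1 : ∀ c, c ≤ d + 2 → d + 1 ≤ col d D h (j + Z) (k + 1) c := by
        intro c hc
        simp only [col]
        rw [stp_G hev.1 hev.2]
        have := hP c hc
        rw [show j + (Z + 1) = j + Z + 1 by omega] at this
        unfold fG; split_ifs <;> omega
      have hne : e ≠ j + Z := by
        rintro rfl
        exact hev' he3
      have := ih j (k + 1) h1 ⟨e, he1, by omega, he3⟩
      rwa [show Z + (k + 1) = Z + 1 + k by omega] at this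

/-- before a marker there is no event -/
lemma prev_of_M (hD : 1 ≤ D) {e : ℕ} (hM : TM D h e) : ¬ TN D h (e + 1) ∧ ¬ TM D h (e + 1) := by
  obtain ⟨D', rfl⟩ := Nat.exists_eq_add_of_le' hD
  unfold TM at hM
  constructor
  · intro hN
    have := hN D' (by omega)
    rw [show e + 1 + D' + 1 = e + (D' + 1) + 1 by omega, show e + 1 + D' = e + (D' + 1) by omega] at this
    rw [this] at hM
    omega
  · intro hM2
    unfold TM at hM2
    rw [show e + 1 + (D' + 1) - 1 = e + (D' + 1) by omega,
      show e + 1 + (D' + 1) = e + (D' + 1) + 1 by omega] at hM2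
    omega

/-- after the end of an N-block there are `D` steps of type G -/
lemma after_block {e : ℕ} (hN : TN D h (e + 1)) (hN' : ¬ TN D h e) :
    ∀ k, k < D → k ≤ e → ¬ TN D h (e - k) ∧ ¬ TM D h (e - k) := by
  intro k hk hke
  obtain ⟨q, rfl⟩ := Nat.exists_eq_add_of_le' hke
  rw [show q + k - k = q by omega]
  constructor
  · intro hq
    apply hN'
    intro i hi
    by_cases h1 : i + k < D
    · have := hq (i + k) h1
      rwa [show q + (i + k) + 1 = q + k + i + 1 by omega, show q + (i + k) = q + k + i by omega] at this
    · have h2 : 1 ≤ i := by omega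
      obtain ⟨i', rfl⟩ := Nat.exists_eq_add_of_le' h2
      have := hN i' (by omega)
      rwa [show q + k + 1 + i' + 1 = q + k + (i' + 1) + 1 by omega,
        show q + k + 1 + i' = q + k + (i' + 1) by omega] at this
  · intro hM
    unfold TM at hM
    have h1 : h (q + D + 1) = h (q + D) := by
      have := hN (D - 1 - k) (by omega)
      rwa [show q + k + 1 + (D - 1 - k) + 1 = q + D + 1 by omega,
        show q + k + 1 + (D - 1 - k) = q + D by omega] at this
    rw [h1] at hM
    omega

/-- every long enough stretch contains an event -/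
lemma exists_event (hD : 1 ≤ D) (i : ℕ) :
    ∃ e, i ≤ e ∧ e < i + (n + (n + 1) * D) ∧ (TN D h e ∨ TM D h e) := by
  by_contra hcon
  push Not at hcon
  have hlt : ∀ m, (h m : ℕ) < n := fun m => (h m).2
  -- strict rises cannot occur too early
  have hrise : ∀ q, q < n + (n + 1) * D → (h (i + D + q + 1) : ℕ) < h (i + D + q) →
      (h (i + D + q) : ℕ) + q ≤ h (i + D) := by
    intro q
    induction q with
    | zero => intro _ _; simp
    | succ q ih =>
      intro hq hr
      have hM := (hcon (i + (q + 1)) (by omega) (by omega)).2
      unfold TM at hM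
      rw [show i + (q + 1) + D + 1 = i + D + (q + 1) + 1 by omega,
        show i + (q + 1) + D - 1 = i + D + q by omega,
        show i + (q + 1) + D = i + D + (q + 1) by omega] at hM
      have h2 : (h (i + D + (q + 1)) : ℕ) < h (i + D + q) := by
        by_contra hc
        exact hM ⟨hr, by omega⟩
      have h3 := ih (by omega) (by rwa [show i + D + q + 1 = i + D + (q + 1) by omega])
      omega
  have hmono : ∀ q, n ≤ q → q < n + (n + 1) * D →
      (h (i + D + q) : ℕ) ≤ h (i + D + q + 1) := by
    intro q h1 h2
    by_contra hc
    have h3 := hrise q h2 (by omega)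
    have h4 := hlt (i + D)
    omega
  have hmono' : ∀ q r, n ≤ q → q + r ≤ n + (n + 1) * D →
      (h (i + D + q) : ℕ) ≤ h (i + D + (q + r)) := by
    intro q r hq
    induction r with
    | zero => intro _; simp
    | succ r ih =>
      intro hr
      have h1 := ih (by omega)
      have h2 := hmono (q + r) (by omega) (by omega)
      rw [show i + D + (q + r) + 1 = i + D + (q + (r + 1)) by omega] at h2
      omega
  have hgrow : ∀ k, k ≤ n → k ≤ (h (i + D + (n + k * D)) : ℕ) := by
    intro k
    induction k with
    | zero => intro _; simp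
    | succ k ih =>
      intro hk
      have h1 := ih (by omega)
      have hkD : (k + 1) * D ≤ n * D := Nat.mul_le_mul_right D hk
      have e1 : (k + 1) * D = k * D + D := by ring
      have e2 : (n + 1) * D = n * D + D := by ring
      have hN := (hcon (i + D + (n + k * D)) (by omega) (by omega)).1
      unfold TN at hN
      push Not at hN
      obtain ⟨t, ht, hne⟩ := hN
      have a1 := hmono' (n + k * D) t (by omega) (by omega)
      have a2 := hmono (n + k * D + t) (by omega) (by omega)
      have a3 := hmono' (n + k * D + t + 1) (D - 1 - t) (by omega) (by omega)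
      rw [show n + k * D + t + 1 + (D - 1 - t) = n + (k + 1) * D by omega] at a3
      have a4 : (h (i + D + (n + k * D) + t) : ℕ) ≠ h (i + D + (n + k * D) + t + 1) := by
        intro hh
        exact hne (Fin.ext hh.symm)
      rw [show i + D + (n + k * D) + t = i + D + (n + k * D + t) by omega] at a4
      rw [show i + D + (n + k * D + t + 1) = i + D + (n + k * D + t) + 1 by omega] at a3
      omega
  have := hgrow n le_rfl
  have h4 := hlt (i + D + (n + n * D))
  omega

/-- **Merging**: for a suitable number of steps the automaton forgets its initial state. -/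
theorem exists_merged (n d : ℕ) : ∃ K : ℕ, ∀ h : ℕ → Fin n, Merged d (d + 1) h 0 K := by
  set D := d + 1 with hDdef
  have hD : 1 ≤ D := by omega
  set Z := n + (n + 1) * D with hZ
  set L := Z + d + 1 with hL
  refine ⟨L + d + D + Z + 1, fun h => ?_⟩
  set K := L + d + D + Z + 1 with hK
  by_cases hcase : ∃ i, K - L ≤ i ∧ i < K ∧ TN D h i
  · obtain ⟨i0, hi1, hi2, hi3⟩ := hcase
    -- go down to the end of the block
    by_cases hlong : ∀ k, k < d + 2 → TN D h (i0 - k)
    · have hm : Merged d D h (i0 - (d + 1)) (d + 2) := by
        apply merged_of_chainN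
        intro i hi
        have := hlong (d + 1 - i) (by omega)
        rwa [show i0 - (d + 1 - i) = i0 - (d + 1) + i by omega] at this
      exact hm.full (by omega)
    · push Not at hlong
      -- least k with ¬ N
      classical
      have hex : ∃ k, ¬ TN D h (i0 - k) := by
        obtain ⟨k, -, hk⟩ := hlong; exact ⟨k, hk⟩
      obtain ⟨k1, hk1, hk1'⟩ := hlong
      have hle : Nat.find hex ≤ k1 := Nat.find_min' hex hk1'
      have hspec := Nat.find_spec hex
      set k := Nat.find hex with hkdef
      have hk0 : k ≠ 0 := by
        intro h0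
        rw [h0] at hspec
        exact hspec (by simpa using hi3)
      have hprev : TN D h (i0 - (k - 1)) := by
        by_contra hc
        exact absurd (Nat.find_min' hex hc) (by omega)
      have hNe : TN D h (i0 - k + 1) := by
        rwa [show i0 - k + 1 = i0 - (k - 1) by omega]
      have hblock := after_block hNe hspec
      -- G steps at e, e-1, ..., e-D+1, with e = i0 - k
      set e := i0 - k with hedef
      have hkk : ∀ c, c ≤ d + 2 → d + 1 ≤ col d D h (e + 1 - D) D c := by
        intro c hc
        have h0 := hblock (D - 1) (by omega) (by omega)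
        rw [show e - (D - 1) = e + 1 - D by omega] at h0
        have hcol : col d D h (e + 1 - D) (d + 1) c
            = stp d D h (e + 1 - D) (col d D h (e + 1 - D + 1) d c) := rfl
        rw [show D = d + 1 from hDdef] at hcol ⊢
        rw [hcol]
        have hch : min d d ≤ col d (d + 1) h (e + 1 - (d + 1) + 1) d c := by
          apply chainG
          intro i hi
          have := (hblock (d - 1 - i) (by omega) (by omega)).1
          rw [show e - (d - 1 - i) = e + 1 - (d + 1) + 1 + i by omega] at this
          exact this
        rw [min_self] at hch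
        rw [stp_G h0.1 h0.2]
        have hle := @col_le n d (d + 1) h (e + 1 - (d + 1) + 1) d c hc
        unfold fG; split_ifs <;> omega
      obtain ⟨e', h1, h2, h3⟩ := exists_event (h := h) hD (e + 1 - D - Z)
      have hm := merge_at_event (d := d) (D := D) (h := h) Z (e + 1 - D - Z) D
        (by rwa [show e + 1 - D - Z + Z = e + 1 - D by omega]) ⟨e', h1, by omega, h3⟩
      exact hm.full (by omega)
  · push Not at hcase
    obtain ⟨e, h1, h2, h3⟩ := exists_event (h := h) hD (K - L)
    have hNe : ¬ TN D h e := hcase e h1 (by omega)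
    have hM : TM D h e := h3.resolve_left hNe
    obtain ⟨g1, g2⟩ := prev_of_M hD hM
    have hm : Merged d D h e (d + 2) := by
      intro c c' hc hc'
      have key : ∀ c, c ≤ d + 2 → col d D h e (d + 2) c = d := by
        intro c hc
        have hcol : col d D h e (d + 2) c
            = stp d D h e (stp d D h (e + 1) (col d D h (e + 1 + 1) d c)) := rfl
        rw [hcol]
        have hch : min d d ≤ col d D h (e + 1 + 1) d c := by
          apply chainG
          intro i hi
          exact hcase _ (by omega) (by omega)
        rw [min_self] at hch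
        have hle := @col_le n d D h (e + 1 + 1) d c hc
        apply reset_event (Or.inr hM)
        · rw [stp_G g1 g2]; unfold fG; split_ifs <;> omega
        · rw [stp_G g1 g2]; unfold fG; split_ifs <;> omega
      rw [key c hc, key c' hc']
    exact hm.full (by omega)

end automaton

end Pool.Agent.W433.OddLoop
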