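import Mathlib
import Pool.Agent.W433.OddLoopA

set_option autoImplicit false

namespace Pool.Agent.W433.OddLoop

variable {A : Type*} {n : ℕ}

/-! ## Loops from strategies with finite memory -/

/-- iterated composition along a labelling of histories -/
def tower (f : (Fin n → A) → A) (φ : (ℕ → Fin n) → A) : ℕ → (ℕ → Fin n) → A
  | 0, h => φ h
  | k + 1, h => f (fun j => tower f φ k (hcons j h))

theorem loop_of_strategy (hn : 1 ≤ n) (R : A → A → Prop) (E : Set A)
    (f : (Fin n → A) → A) (hid : ∀ x, f (fun _ => x) = x)
    (hcomp : ∀ x y : Fin n → A, (∀ i, R (x i) (y i)) → R (f x) (f y))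
    (hE : ∀ x : Fin n → A, (∀ i, x i ∈ E) → f x ∈ E)
    (φ : (ℕ → Fin n) → A) (K : ℕ) (hK : ∀ h h' : ℕ → Fin n, (∀ m < K, h m = h' m) → φ h = φ h')
    (hφE : ∀ h, φ h ∈ E)
    (hφ : ∀ h, R (φ h) (f (fun j => φ (hcons j h)))) :
    ∃ t ∈ E, R t t := by
  have h1 : ∀ k h, R (tower f φ k h) (tower f φ (k + 1) h) := by
    intro k
    induction k with
    | zero => intro h; exact hφ h
    | succ k ih => intro h; exact hcomp _ _ (fun j => ih (hcons j h))
  have h2 : ∀ k (h h' : ℕ → Fin n), (∀ m, m + k < K → h m = h' m) →
      tower f φ k h = tower f φ k h' := by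
    intro k
    induction k with
    | zero => intro h h' H; exact hK h h' (fun m hm => H m (by omega))
    | succ k ih =>
      intro h h' H
      have : ∀ j, tower f φ k (hcons j h) = tower f φ k (hcons j h') := by
        intro j
        apply ih
        intro m hm
        cases m with
        | zero => rfl
        | succ m => exact H m (by omega)
      simp only [tower, this]
  have h3 : ∀ k h, tower f φ k h ∈ E := by
    intro k
    induction k with
    | zero => intro h; exact hφE h
    | succ k ih => intro h; exact hE _ (fun j => ih (hcons j h))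
  let h0 : ℕ → Fin n := fun _ => ⟨0, hn⟩
  have hconst : ∀ h, tower f φ K h = tower f φ K h0 := fun h => h2 K h h0 (fun m hm => by omega)
  have h4 : tower f φ (K + 1) h0 = tower f φ K h0 := by
    have : tower f φ (K + 1) h0 = f (fun j => tower f φ K (hcons j h0)) := rfl
    rw [this]
    simp only [hconst]
    exact hid _
  refine ⟨tower f φ K h0, h3 K h0, ?_⟩
  have := h1 K h0
  rwa [h4] at this

/-- The main lemma: a triangle in the component of an absorbing vertex gives a loop.
`v 0 = a`, `v 0, ..., v d` is a walk and `v d, v (d+1), v (d+2)` is a triangle. -/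
theorem loop_of_triangle (hn : 1 ≤ n) (R : A → A → Prop) (hsymm : ∀ x y, R x y → R y x)
    (E : Set A)
    (f : (Fin n → A) → A) (hid : ∀ x, f (fun _ => x) = x)
    (hcomp : ∀ x y : Fin n → A, (∀ i, R (x i) (y i)) → R (f x) (f y))
    (hE : ∀ x : Fin n → A, (∀ i, x i ∈ E) → f x ∈ E)
    (v : ℕ → A) (d : ℕ)
    (habs : ∀ (j : Fin n) (b : Fin n → A), (∀ i, R (v 0) (b i)) →
      R (v 0) (f (Function.update b j (v 0))))
    (hpath : ∀ s, s ≤ d + 1 → R (v s) (v (s + 1)))
    (htri : R (v d) (v (d + 2)))
    (hvE : ∀ s, s ≤ d + 2 → v s ∈ E) :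
    ∃ t ∈ E, R t t := by
  classical
  obtain ⟨K, hK⟩ := exists_merged n d
  have hD : 1 ≤ d + 1 := by omega
  set D := d + 1 with hDdef
  let φ : (ℕ → Fin n) → A := fun h => v (col d D h 0 K 0)
  apply loop_of_strategy hn R E f hid hcomp hE φ (K + D + 2)
  · intro h h' H
    have : col d D h 0 K 0 = col d D h' 0 K 0 := col_congr (fun m hm => H m (by omega))
    simp only [φ, this]
  · intro h
    exact hvE _ (col_le (by omega))
  · intro h
    -- the state after one more letter
    set s := col d D h 0 K 0 with hs
    have hsle : s ≤ d + 2 := col_le (by omega)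
    have hnext : ∀ j, col d D (hcons j h) 0 K 0 = stp d D (hcons j h) 0 s := by
      intro j
      have h1 : Merged d D (hcons j h) 0 (K + 1) := (hK (hcons j h)).older 1
      have h2 : col d D (hcons j h) 0 (K + 1) 0 = stp d D (hcons j h) 0 s := by
        simp only [col]
        rw [col_hcons hD]
      rw [← h2, col_add (l := 1)]
      exact hK (hcons j h) _ _ (by omega) (col_le (by omega))
    have hφ : (fun j => φ (hcons j h)) = fun j => v (stp d D (hcons j h) 0 s) := by
      funext j
      simp only [φ, hnext]
    have hφh : φ h = v s := rfl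
    rw [hφ, hφh]
    by_cases hs0 : s = 0
    · -- at the absorbing vertex
      rw [hs0]
      have hval : ∀ j, ¬ TN D (hcons j h) 0 → stp d D (hcons j h) 0 0 = 1 := by
        intro j hj
        by_cases hM : TM D (hcons j h) 0
        · rw [stp_M hj hM]; simp [fM]
        · rw [stp_G hj hM]; simp [fG]
      have hb : ∀ i : Fin n, R (v 0) ((fun _ : Fin n => v 1) i) := fun _ => hpath 0 (by omega)
      by_cases hex : ∃ j, TN D (hcons j h) 0
      · obtain ⟨j0, hj0⟩ := hex
        have huniq : ∀ j, TN D (hcons j h) 0 → j = h 0 := by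
          intro j hj
          have := hj 0 (by omega)
          simpa [hcons] using this.symm
        have hj0' := huniq j0 hj0
        have hN0 : stp d D (hcons j0 h) 0 0 = 0 := by
          rw [stp_N hj0]; simp [fN]
        have heq : (fun j => v (stp d D (hcons j h) 0 0))
            = Function.update (fun _ : Fin n => v 1) j0 (v 0) := by
          funext j
          by_cases hjj : j = j0
          · subst hjj
            rw [hN0]; simp
          · rw [Function.update_of_ne hjj, hval j]
            intro hc
            exact hjj ((huniq j hc).trans hj0'.symm)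
        rw [heq]
        exact habs j0 _ hb
      · push Not at hex
        have heq : (fun j => v (stp d D (hcons j h) 0 0)) = (fun _ : Fin n => v 1) := by
          funext j
          rw [hval j (hex j)]
        rw [heq, hid]
        exact hpath 0 (by omega)
    · -- elsewhere every move is along an edge
      have hmove : ∀ j, R (v s) (v (stp d D (hcons j h) 0 s)) := by
        intro j
        have down : ∀ t, 1 ≤ t → t ≤ d + 2 → R (v t) (v (t - 1)) := by
          intro t h1 h2
          obtain ⟨t', rfl⟩ := Nat.exists_eq_add_of_le' h1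
          exact hsymm _ _ (hpath t' (by omega))
        by_cases hN : TN D (hcons j h) 0
        · rw [stp_N hN]
          unfold fN
          split_ifs with h1
          · rw [h1]; exact hsymm _ _ htri
          · exact down s (by omega) hsle
        · by_cases hM : TM D (hcons j h) 0
          · rw [stp_M hN hM]
            unfold fM
            split_ifs with h1
            · exact hpath s (by omega)
            · rcases Nat.lt_or_ge s (d + 2) with h2 | h2
              · have : s = d + 1 := by omega
                rw [this]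
                exact down (d + 1) (by omega) (by omega)
              · have : s = d + 2 := by omega
                rw [this]
                exact hsymm _ _ htri
          · rw [stp_G hN hM]
            unfold fG
            split_ifs with h1
            · exact hpath s h1
            · have : s = d + 2 := by omega
              rw [this]
              exact down (d + 2) (by omega) le_rfl
      have := hcomp (fun _ => v s) (fun j => v (stp d D (hcons j h) 0 s)) hmove
      rwa [hid] at this

/-! ## Walks -/

/-- there is a walk of length `k` -/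
def Walk (R : A → A → Prop) : ℕ → A → A → Prop
  | 0, x, y => x = y
  | k + 1, x, y => ∃ z, R x z ∧ Walk R k z y

lemma Walk.trans {R : A → A → Prop} {j k : ℕ} {x y z : A} (h1 : Walk R j x y)
    (h2 : Walk R k y z) : Walk R (j + k) x z := by
  induction j generalizing x with
  | zero => simp only [Walk] at h1; subst h1; simpa using h2
  | succ j ih =>
    obtain ⟨w, hw, hw'⟩ := h1
    rw [show j + 1 + k = (j + k) + 1 by omega]
    exact ⟨w, hw, ih hw'⟩

lemma Walk.one {R : A → A → Prop} {x y : A} : Walk R 1 x y ↔ R x y := by
  constructor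
  · rintro ⟨z, hz, hz'⟩
    simp only [Walk] at hz'
    rwa [hz'] at hz
  · intro h; exact ⟨y, h, rfl⟩

lemma Walk.symm {R : A → A → Prop} (hsymm : ∀ x y, R x y → R y x) {k : ℕ} {x y : A}
    (h : Walk R k x y) : Walk R k y x := by
  induction k generalizing x with
  | zero => exact Eq.symm h
  | succ k ih =>
    obtain ⟨w, hw, hw'⟩ := h
    exact (ih hw').trans (Walk.one.2 (hsymm _ _ hw))

lemma Walk.comp {R : A → A → Prop} {f : (Fin n → A) → A}
    (hcomp : ∀ x y : Fin n → A, (∀ i, R (x i) (y i)) → R (f x) (f y)) {k : ℕ}
    {x y : Fin n → A} (h : ∀ i, Walk R k (x i) (y i)) : Walk R k (f x) (f y) := by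
  induction k generalizing x with
  | zero =>
    have : x = y := funext h
    rw [this]; rfl
  | succ k ih =>
    choose z hz hz' using h
    exact ⟨f z, hcomp _ _ hz, ih hz'⟩

/-- back and forth -/
lemma Walk.pad {R : A → A → Prop} (hsymm : ∀ x y, R x y → R y x) {x z : A} (hxz : R x z)
    {k : ℕ} {y : A} (h : Walk R k x y) (m : ℕ) : Walk R (k + 2 * m) x y := by
  induction m with
  | zero => simpa using h
  | succ m ih =>
    rw [show k + 2 * (m + 1) = 1 + (1 + (k + 2 * m)) by ring]
    exact (Walk.one.2 hxz).trans ((Walk.one.2 (hsymm _ _ hxz)).trans ih)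

lemma Walk.odd_self {R : A → A → Prop} (hsymm : ∀ x y, R x y → R y x) {x z : A} (hxz : R x z)
    (m : ℕ) : Walk R (2 * m + 1) x z := by
  have := Walk.pad hsymm hxz (Walk.one.2 hxz) m
  rwa [Nat.add_comm] at this

/-- points of a walk -/
lemma Walk.exists_fun {R : A → A → Prop} {k : ℕ} {x y : A} (h : Walk R k x y) :
    ∃ v : ℕ → A, v 0 = x ∧ v k = y ∧ ∀ s < k, R (v s) (v (s + 1)) := by
  induction k generalizing x with
  | zero => exact ⟨fun _ => x, rfl, h, fun s hs => by omega⟩
  | succ k ih =>
    obtain ⟨z, hz, hz'⟩ := h
    obtain ⟨v, h0, hk, hv⟩ := ih hz'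
    refine ⟨fun s => Nat.casesOn s x v, rfl, hk, ?_⟩
    intro s hs
    cases s with
    | zero => simpa [h0] using hz
    | succ s => exact hv s (by omega)

lemma Walk.of_fun {R : A → A → Prop} {v : ℕ → A} {k : ℕ} (hv : ∀ s < k, R (v s) (v (s + 1))) :
    ∀ i j, i ≤ j → j ≤ k → Walk R (j - i) (v i) (v j) := by
  intro i j hij
  obtain ⟨m, rfl⟩ := Nat.exists_eq_add_of_le hij
  induction m with
  | zero => intro _; simp [Walk]
  | succ m ih =>
    intro hj
    have h1 := ih (by omega) (by omega)
    rw [show i + (m + 1) - i = (i + m - i) + 1 by omega]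
    exact h1.trans (Walk.one.2 (hv _ (by omega)))

/-! ## Odd powers of the relation -/

/-- absorption passes to odd powers -/
lemma abs_power {R : A → A → Prop} (hsymm : ∀ x y, R x y → R y x) {f : (Fin n → A) → A}
    (hcomp : ∀ x y : Fin n → A, (∀ i, R (x i) (y i)) → R (f x) (f y)) {a b0 : A} (hb0 : R a b0)
    (habs : ∀ (j : Fin n) (b : Fin n → A), (∀ i, R a (b i)) → R a (f (Function.update b j a)))
    (m : ℕ) (j : Fin n) (b : Fin n → A) (hb : ∀ i, Walk R (2 * m + 1) a (b i)) :
    Walk R (2 * m + 1) a (f (Function.update b j a)) := by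
  classical
  choose w hw hw' using hb
  refine ⟨f (Function.update w j a), habs j w hw, ?_⟩
  apply Walk.comp hcomp
  intro i
  by_cases hi : i = j
  · subst hi
    simp only [Function.update_self]
    have h0 : Walk R 0 a a := rfl
    have := Walk.pad hsymm hb0 h0 m
    simpa using this
  · simp only [Function.update_of_ne hi]
    exact hw' i

/-- The general theorem: `a` absorbing, `c` reachable from `a`, closed walk of odd length at `c`. -/
theorem loop_of_odd (hn : 1 ≤ n) {R : A → A → Prop} (hsymm : ∀ x y, R x y → R y x)
    {f : (Fin n → A) → A} (hid : ∀ x, f (fun _ => x) = x)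
    (hcomp : ∀ x y : Fin n → A, (∀ i, R (x i) (y i)) → R (f x) (f y)) {a b0 : A} (hb0 : R a b0)
    (habs : ∀ (j : Fin n) (b : Fin n → A), (∀ i, R a (b i)) → R a (f (Function.update b j a)))
    (m : ℕ) : ∀ (c : A) (p : ℕ), Walk R p a c → Walk R (2 * m + 1) c c → ∃ t, R t t := by
  induction m with
  | zero => intro c p _ h; exact ⟨c, Walk.one.1 h⟩
  | succ m ih =>
    intro c p hp hc
    set S : A → A → Prop := Walk R (2 * m + 1) with hS
    have hRS : ∀ x y, R x y → S x y := fun x y h => Walk.odd_self hsymm h m
    have hSsymm : ∀ x y, S x y → S y x := fun x y h => h.symm hsymm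
    have hScomp : ∀ x y : Fin n → A, (∀ i, S (x i) (y i)) → S (f x) (f y) :=
      fun x y h => Walk.comp hcomp h
    have hSabs : ∀ (j : Fin n) (b : Fin n → A), (∀ i, S a (b i)) →
        S a (f (Function.update b j a)) := fun j b h => abs_power hsymm hcomp hb0 habs m j b h
    -- a walk of length at least one from a to c
    obtain ⟨p', hp'1, hp'⟩ : ∃ p', 1 ≤ p' ∧ Walk R p' a c :=
      ⟨p + 2 * 1, by omega, Walk.pad hsymm hb0 hp 1⟩
    obtain ⟨u, hu0, hup, hu⟩ := hp'.exists_fun
    obtain ⟨w, hw0, hwl, hw⟩ := hc.exists_fun
    -- the set of points reachable by an even walk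
    let E : Set A := {x | ∃ k, Walk R (2 * k) a x}
    have hE : ∀ x : Fin n → A, (∀ i, x i ∈ E) → f x ∈ E := by
      intro x hx
      choose k hk using hx
      refine ⟨∑ i, k i, ?_⟩
      have : Walk R (2 * ∑ i, k i) (f (fun _ => a)) (f x) := by
        apply Walk.comp hcomp
        intro i
        have hle : k i ≤ ∑ i, k i := Finset.single_le_sum (fun _ _ => Nat.zero_le _) (Finset.mem_univ i)
        obtain ⟨r, hr⟩ := Nat.exists_eq_add_of_le hle
        rw [hr, Nat.mul_add]
        exact Walk.pad hsymm hb0 (hk i) r
      rwa [hid] at this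
    have hodd : Walk R (p' + ((2 * (m + 1) + 1) + p')) a a := hp'.trans (hc.trans (hp'.symm hsymm))
    have hEall : ∀ x k, Walk R k a x → x ∈ E := by
      intro x k hk
      rcases Nat.even_or_odd' k with ⟨r, hr | hr⟩
      · exact ⟨r, by rwa [hr] at hk⟩
      · refine ⟨p' + (m + 1) + 1 + r, ?_⟩
        have := hodd.trans hk
        rwa [show p' + ((2 * (m + 1) + 1) + p') + k = 2 * (p' + (m + 1) + 1 + r) by omega] at this
    -- the configuration for the main lemma
    let v : ℕ → A := fun s => if s ≤ p' then u s else w (s - p')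
    have hv1 : ∀ s, s ≤ p' → v s = u s := fun s hs => if_pos hs
    have hv2 : ∀ s, v (p' + s) = w s := by
      intro s
      by_cases h0 : s = 0
      · subst h0
        rw [Nat.add_zero, hv1 p' le_rfl, hup, hw0]
      · simp only [v]
        rw [if_neg (by omega), show p' + s - p' = s by omega]
    have hv0 : v 0 = a := by rw [hv1 0 (by omega), hu0]
    have hstep : ∀ s, s < p' + (2 * (m + 1) + 1) → R (v s) (v (s + 1)) := by
      intro s hs
      by_cases h1 : s < p'
      · rw [hv1 s (by omega), hv1 (s + 1) (by omega)]
        exact hu s h1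
      · obtain ⟨q, rfl⟩ := Nat.exists_eq_add_of_le (Nat.not_lt.1 h1)
        rw [Nat.add_assoc, hv2, hv2]
        exact hw q (by omega)
    obtain ⟨t, ⟨k, hk⟩, ht⟩ := loop_of_triangle hn S hSsymm E f hid hScomp hE v p'
      (by rw [hv0]; exact hSabs)
      (fun s hs => hRS _ _ (hstep s (by omega)))
      (by
        rw [show v p' = w 0 by simpa using hv2 0, hv2 2]
        have h1 := Walk.of_fun hw 2 (2 * (m + 1) + 1) (by omega) le_rfl
        rw [show 2 * (m + 1) + 1 - 2 = 2 * m + 1 by omega, hwl, ← hw0] at h1
        exact hSsymm _ _ h1)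
      (by
        intro s hs
        have h1 := Walk.of_fun hstep 0 s (by omega) (by omega)
        rw [hv0] at h1
        exact hEall _ _ h1)
    exact ih t (2 * k) hk ht

end Pool.Agent.W433.OddLoop
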